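import Pool.Agent.H34.PS.Targets

set_option autoImplicit false

open Finset

namespace Pool.Agent.H20.PSQ

open Pool.Agent.H34.PS

lemma chi_mul (D : ℤ) (m n : ℕ) : chi D (m * n) = chi D m * chi D n := by
  unfold chi
  by_cases hm : m % 2 = 1
  · by_cases hn : n % 2 = 1
    · have hmn : (m * n) % 2 = 1 := by rw [Nat.mul_mod, hm, hn]
      rw [if_pos hmn, if_pos hm, if_pos hn]
      haveI : NeZero m := ⟨by rintro rfl; simp at hm⟩
      haveI : NeZero n := ⟨by rintro rfl; simp at hn⟩
      rw [jacobiSym.mul_right]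
      push_cast
      ring
    · have hmn : ¬ (m * n) % 2 = 1 := by
        rw [Nat.mul_mod]
        have : n % 2 = 0 := by omega
        simp [this]
      rw [if_neg hmn, if_neg hn, mul_zero]
  · have hmn : ¬ (m * n) % 2 = 1 := by
      rw [Nat.mul_mod]
      have : m % 2 = 0 := by omega
      simp [this]
    rw [if_neg hmn, if_neg hm, zero_mul]

lemma chi_abs (D : ℤ) (n : ℕ) : |chi D n| ≤ 1 := by
  unfold chi
  split_ifs with h
  · rcases jacobiSym.trichotomy D n with h | h | h <;> rw [h] <;> norm_num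
  · norm_num

lemma natAbs_Dok {b : ℕ} {D : ℤ} (h : Dok b D) : D.natAbs = b := by
  rcases h with ⟨_, _, h | h⟩ | ⟨h1, h⟩
  · rw [h]; simp
  · rw [h]; simp
  · rw [h, h1]; simp

lemma chi_mod {b : ℕ} {D : ℤ} (h : Dok b D) (n : ℕ) : chi D (n % (4 * b)) = chi D n := by
  have hp : (n % (4 * b)) % 2 = n % 2 := Nat.mod_mod_of_dvd n ⟨2 * b, by ring⟩
  unfold chi
  rw [hp]
  split_ifs with hn
  · have ho : Odd n := Nat.odd_iff.2 hn
    rw [jacobiSym.mod_right D ho, natAbs_Dok h]
  · rfl

lemma chi_period {b : ℕ} {D : ℤ} (h : Dok b D) (n : ℕ) : chi D (n + 4 * b) = chi D n := by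
  rw [← chi_mod h (n + 4 * b), ← chi_mod h n, Nat.add_mod_right]

/-- a number `n0 ≡ 1 (mod 4)` with `J(b | n0) = -1` -/
lemma exists_n0 {b : ℕ} (hb : 2 ≤ b) (hs : Squarefree b) :
    ∃ n0 : ℕ, n0 % 4 = 1 ∧ Nat.Coprime n0 (4 * b) ∧ jacobiSym b n0 = -1 := by
  by_cases h2 : b = 2
  · subst h2
    exact ⟨5, by norm_num, by norm_num, by norm_num⟩
  · obtain ⟨l, hl, hlb, hl2⟩ : ∃ l : ℕ, l.Prime ∧ l ∣ b ∧ l ≠ 2 := by
      by_contra hcon
      push Not at hcon
      have hpow : b ∣ 2 := by
        rw [← Nat.prod_primeFactors_of_squarefree hs]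
        have hsub : b.primeFactors ⊆ {2} := by
          intro p hp
          rw [Finset.mem_singleton]
          exact hcon p (Nat.prime_of_mem_primeFactors hp) (Nat.dvd_of_mem_primeFactors hp)
        have := Finset.prod_dvd_prod_of_subset _ _ (fun p => p) hsub
        simpa using this
      have := (Nat.dvd_prime Nat.prime_two).1 hpow
      omega
    obtain ⟨b', rfl⟩ := hlb
    have hcop : Nat.Coprime l b' := (Nat.squarefree_mul_iff.1 hs).1
    have hb' : 0 < b' := Nat.pos_of_ne_zero (by rintro rfl; simp at hb)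
    haveI : Fact l.Prime := ⟨hl⟩
    have hodd : Odd l := hl.odd_of_ne_two hl2
    obtain ⟨u, hu⟩ : ∃ a : ZMod l, ¬ IsSquare a := by
      apply FiniteField.exists_nonsquare
      rw [ZMod.ringChar_zmod_n]
      exact hl2
    have hc4 : Nat.Coprime (4 * b') l := by
      apply Nat.Coprime.mul_left
      · have : Nat.Coprime (2 ^ 2) l := Nat.Coprime.pow_left 2 ((Nat.coprime_primes Nat.prime_two hl).2 (Ne.symm hl2))
        simpa using this
      · exact hcop.symm
    obtain ⟨n0, h1, h3⟩ := Nat.chineseRemainder hc4 1 u.val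
    have hn4 : n0 % 4 = 1 := by
      have : n0 ≡ 1 [MOD 4] := h1.of_dvd ⟨b', rfl⟩
      simpa [Nat.ModEq] using this
    have hno : Odd n0 := by
      rw [Nat.odd_iff]; omega
    have hu0 : (n0 : ZMod l) = u := by
      have : ((n0 : ℕ) : ZMod l) = ((u.val : ℕ) : ZMod l) := (ZMod.natCast_eq_natCast_iff _ _ _).2 h3
      rw [this, ZMod.natCast_val, ZMod.cast_id]
    have hJl : jacobiSym n0 l = -1 := by
      rw [← jacobiSym.legendreSym.to_jacobiSym, legendreSym.eq_neg_one_iff]
      push_cast
      rw [hu0]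
      exact hu
    refine ⟨n0, hn4, ?_, ?_⟩
    · have e1 : Nat.Coprime n0 (4 * b') := by
        rw [Nat.Coprime, h1.gcd_eq]
        simp
      have e2 : Nat.Coprime n0 l := by
        rw [Nat.coprime_comm, hl.coprime_iff_not_dvd]
        intro hd
        apply hu
        rw [← hu0, (ZMod.natCast_eq_zero_iff _ _).2 hd]
        exact ⟨0, by simp⟩
      have : 4 * (l * b') = l * (4 * b') := by ring
      rw [this]
      exact Nat.Coprime.mul_right e2 e1
    · push_cast
      rw [jacobiSym.mul_left]
      have e1 : jacobiSym l n0 = -1 := by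
        rw [jacobiSym.quadratic_reciprocity_one_mod_four' hodd hn4]
        exact hJl
      have e2 : jacobiSym b' n0 = 1 := by
        rw [jacobiSym.mod_right _ hno]
        have : n0 % (4 * (b' : ℤ).natAbs) = 1 := by
          rw [Int.natAbs_natCast]
          have := h1
          rw [Nat.ModEq] at this
          rw [this, Nat.mod_eq_of_lt (by omega)]
        rw [this]
        exact jacobiSym.one_right _
      rw [e1, e2]
      norm_num

lemma sum_zero {b : ℕ} {D : ℤ} (h : Dok b D) : ∑ n ∈ range (4 * b), chi D n = 0 := by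
  have h' := h
  rcases h with ⟨hb, hs, hD⟩ | ⟨hb, hD⟩
  · obtain ⟨n0, h4, hc, hJ⟩ := exists_n0 hb hs
    have hno : Odd n0 := by rw [Nat.odd_iff]; omega
    have hchi : chi D n0 = -1 := by
      unfold chi
      rw [if_pos (by omega)]
      rcases hD with rfl | rfl
      · rw [hJ]; norm_num
      · rw [jacobiSym.neg _ hno, hJ]
        rw [ZMod.χ₄_nat_one_mod_four h4]
        norm_num
    obtain ⟨n1, hn1⟩ : ∃ n1 : ℕ, n0 * n1 ≡ 1 [MOD (4 * b)] := by
      obtain ⟨m, hm⟩ := Nat.exists_mul_mod_eq_one_of_coprime hc (by omega)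
      refine ⟨m, ?_⟩
      rw [Nat.ModEq, hm.2, Nat.mod_eq_of_lt (by omega)]
    have hpos : 0 < 4 * b := by omega
    have key : ∑ n ∈ range (4 * b), chi D n = ∑ n ∈ range (4 * b), chi D (n0 * n) := by
      symm
      refine Finset.sum_nbij' (fun n => n0 * n % (4 * b)) (fun n => n1 * n % (4 * b)) ?_ ?_ ?_ ?_ ?_
      · intro a _
        exact Finset.mem_range.2 (Nat.mod_lt _ hpos)
      · intro a _
        exact Finset.mem_range.2 (Nat.mod_lt _ hpos)
      · intro a ha
        have ha' := Finset.mem_range.1 ha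
        have e : n1 * (n0 * a % (4 * b)) ≡ a [MOD (4 * b)] := by
          calc n1 * (n0 * a % (4 * b)) ≡ n1 * (n0 * a) [MOD (4 * b)] :=
                (Nat.mod_modEq _ _).mul_left _
            _ = (n0 * n1) * a := by ring
            _ ≡ 1 * a [MOD (4 * b)] := hn1.mul_right _
            _ = a := by ring
        have := e
        rw [Nat.ModEq] at this
        rw [this, Nat.mod_eq_of_lt ha']
      · intro a ha
        have ha' := Finset.mem_range.1 ha
        have e : n0 * (n1 * a % (4 * b)) ≡ a [MOD (4 * b)] := by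
          calc n0 * (n1 * a % (4 * b)) ≡ n0 * (n1 * a) [MOD (4 * b)] :=
                (Nat.mod_modEq _ _).mul_left _
            _ = (n0 * n1) * a := by ring
            _ ≡ 1 * a [MOD (4 * b)] := hn1.mul_right _
            _ = a := by ring
        have := e
        rw [Nat.ModEq] at this
        rw [this, Nat.mod_eq_of_lt ha']
      · intro a _
        rw [chi_mod h']
    have k2 : ∑ n ∈ range (4 * b), chi D (n0 * n) = -∑ n ∈ range (4 * b), chi D n := by
      rw [← Finset.sum_neg_distrib]
      apply Finset.sum_congr rfl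
      intro n _
      rw [chi_mul, hchi]
      ring
    linarith
  · subst hb hD
    have e : jacobiSym (-1) 3 = -1 := by norm_num
    simp [Finset.sum_range_succ, chi, e]

theorem pf_JM : T_JM := by
  intro b D h
  refine ⟨chi_mul D, ?_, ?_, chi_abs D, chi_period h, sum_zero h⟩
  · simp [chi]
  · simp [chi]

end Pool.Agent.H20.PSQ
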