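import Pool.Agent.H34.PS.Targets

set_option autoImplicit false

open Finset

namespace Pool.Agent.H20.PSQ

open Pool.Agent.H34.PS

/-- exactness only depends on the residues -/
lemma exa_congr {q a b a' b' : ℕ} (ha : a ≡ a' [MOD q ^ 2]) (hb : b ≡ b' [MOD q ^ 2]) :
    Exa q (a ^ 2 + b ^ 2) ↔ Exa q (a' ^ 2 + b' ^ 2) := by
  have h : a ^ 2 + b ^ 2 ≡ a' ^ 2 + b' ^ 2 [MOD q ^ 2] := (ha.pow 2).add (hb.pow 2)
  have h1 : q ∣ a ^ 2 + b ^ 2 ↔ q ∣ a' ^ 2 + b' ^ 2 := h.dvd_iff (Dvd.intro_left (q ^ 1) (by ring))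
  have h2 : q ^ 2 ∣ a ^ 2 + b ^ 2 ↔ q ^ 2 ∣ a' ^ 2 + b' ^ 2 := h.dvd_iff dvd_rfl
  unfold Exa
  rw [h1, h2]

/-- for a root `r` of `a² + r² = 0` modulo `q`, at most one lift modulo `q²` is a root -/
lemma lift_count {q a r : ℕ} (hq : q.Prime) (hq2 : q ≠ 2) (ha : ¬ q ∣ a) (hr : q ∣ a ^ 2 + r ^ 2) :
    ((range q).filter fun k => q ^ 2 ∣ a ^ 2 + (r + q * k) ^ 2).card ≤ 1 := by
  rw [Finset.card_le_one]
  intro k hk k' hk'
  rw [Finset.mem_filter, Finset.mem_range] at hk hk'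
  have hqZ : Prime (q : ℤ) := Nat.prime_iff_prime_int.1 hq
  have h1 : ((q : ℤ) ^ 2) ∣ (a : ℤ) ^ 2 + (r + q * k) ^ 2 := by exact_mod_cast hk.2
  have h2 : ((q : ℤ) ^ 2) ∣ (a : ℤ) ^ 2 + (r + q * k') ^ 2 := by exact_mod_cast hk'.2
  have h3 : ((q : ℤ) ^ 2) ∣ (q : ℤ) * (((k : ℤ) - k') * (2 * r + q * (k + k'))) := by
    have := dvd_sub h1 h2
    have e : ((a : ℤ) ^ 2 + (r + q * k) ^ 2) - ((a : ℤ) ^ 2 + (r + q * k') ^ 2) =
      (q : ℤ) * (((k : ℤ) - k') * (2 * r + q * (k + k'))) := by ring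
    rwa [e] at this
  have hq0 : (q : ℤ) ≠ 0 := by exact_mod_cast hq.ne_zero
  have h4 : (q : ℤ) ∣ ((k : ℤ) - k') * (2 * r + q * (k + k')) := by
    rw [pow_two] at h3
    exact (mul_dvd_mul_iff_left hq0).1 h3
  rcases hqZ.dvd_or_dvd h4 with h | h
  · have : (k : ℤ) ≡ k' [ZMOD q] := by
      rw [Int.modEq_iff_dvd]
      have := (dvd_neg (α := ℤ)).2 h
      rwa [neg_sub] at this
    have := (Int.natCast_modEq_iff).1 this
    exact Nat.ModEq.eq_of_lt_of_lt this hk.1 hk'.1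
  · exfalso
    have h5 : (q : ℤ) ∣ 2 * r := by
      have := dvd_sub h (Dvd.intro ((k : ℤ) + k') rfl : (q : ℤ) ∣ q * (k + k'))
      simpa using this
    have h6 : q ∣ 2 * r := by exact_mod_cast h5
    rcases (Nat.Prime.dvd_mul hq).1 h6 with h | h
    · exact hq2 ((Nat.prime_dvd_prime_iff_eq hq Nat.prime_two).1 h)
    · have : q ∣ a ^ 2 := (Nat.dvd_add_left (dvd_pow h two_ne_zero)).1 hr
      exact ha (hq.dvd_of_dvd_pow this)

/-- at least `q - 1` lifts are exact -/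
lemma lift_exact {q a r : ℕ} (hq : q.Prime) (hq2 : q ≠ 2) (ha : ¬ q ∣ a)
    (hr : q ∣ a ^ 2 + r ^ 2) :
    q - 1 ≤ ((range q).filter fun k => ¬ q ^ 2 ∣ a ^ 2 + (r + q * k) ^ 2).card := by
  have h1 := lift_count hq hq2 ha hr
  have h2 := Finset.card_filter_add_card_filter_not (s := range q)
    (fun k => q ^ 2 ∣ a ^ 2 + (r + q * k) ^ 2)
  rw [Finset.card_range] at h2
  omega

/-- two square roots of `-a²` modulo `q` -/
lemma exists_roots {q a : ℕ} (hq : q.Prime) (h4 : q % 4 = 1) (ha : ¬ q ∣ a) :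
    ∃ r r' : ℕ, r < q ∧ r' < q ∧ r ≠ r' ∧ q ∣ a ^ 2 + r ^ 2 ∧ q ∣ a ^ 2 + r' ^ 2 := by
  haveI : Fact q.Prime := ⟨hq⟩
  obtain ⟨i, hi⟩ : IsSquare (-1 : ZMod q) := by
    rw [ZMod.exists_sq_eq_neg_one_iff]
    omega
  have ha0 : (a : ZMod q) ≠ 0 := by
    rwa [Ne, ZMod.natCast_eq_zero_iff]
  have hi0 : i ≠ 0 := by
    rintro rfl
    simp at hi
  set x : ZMod q := i * a with hx
  have hx0 : x ≠ 0 := mul_ne_zero hi0 ha0
  have hxx : (a : ZMod q) ^ 2 + x ^ 2 = 0 := by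
    have : x ^ 2 = (i * i) * (a : ZMod q) ^ 2 := by rw [hx]; ring
    rw [this, ← hi]
    ring
  have hval : ∀ y : ZMod q, (a : ZMod q) ^ 2 + y ^ 2 = 0 → q ∣ a ^ 2 + y.val ^ 2 := by
    intro y hy
    rw [← ZMod.natCast_eq_zero_iff]
    push_cast
    rw [ZMod.natCast_zmod_val]
    exact hy
  have hne : x ≠ -x := by
    intro h
    have h2 : (2 : ZMod q) * x = 0 := by
      have : x + x = 0 := by
        nth_rewrite 1 [h]
        ring
      rw [two_mul]; exact this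
    rcases mul_eq_zero.1 h2 with h | h
    · have : ((2 : ℕ) : ZMod q) = 0 := by exact_mod_cast h
      rw [ZMod.natCast_eq_zero_iff] at this
      have := (Nat.prime_dvd_prime_iff_eq hq Nat.prime_two).1 this
      omega
    · exact hx0 h
  refine ⟨x.val, (-x).val, ZMod.val_lt _, ZMod.val_lt _, ?_, hval _ hxx, hval _ ?_⟩
  · intro h
    exact hne (ZMod.val_injective q h)
  · rw [neg_sq]; exact hxx

lemma exact_row {q a : ℕ} (hq : q.Prime) (h4 : q % 4 = 1) (ha : ¬ q ∣ a) :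
    2 * (q - 1) ≤ ((range (q ^ 2)).filter fun b => q ∣ a ^ 2 + b ^ 2 ∧ ¬ q ^ 2 ∣ a ^ 2 + b ^ 2).card := by
  classical
  obtain ⟨r, r', hr, hr', hne, h1, h2⟩ := exists_roots hq h4 ha
  have hq2 : q ≠ 2 := by omega
  have hqpos := hq.pos
  set A := ((range q).filter fun k => ¬ q ^ 2 ∣ a ^ 2 + (r + q * k) ^ 2) with hA
  set B := ((range q).filter fun k => ¬ q ^ 2 ∣ a ^ 2 + (r' + q * k) ^ 2) with hB
  have hAc := lift_exact hq hq2 ha h1
  have hBc := lift_exact hq hq2 ha h2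
  have inj : ∀ s : ℕ, Function.Injective fun k : ℕ => s + q * k := by
    intro s k k' h
    have : q * k = q * k' := Nat.add_left_cancel h
    exact Nat.eq_of_mul_eq_mul_left hqpos this
  have hsub : A.image (fun k => r + q * k) ∪ B.image (fun k => r' + q * k) ⊆
      ((range (q ^ 2)).filter fun b => q ∣ a ^ 2 + b ^ 2 ∧ ¬ q ^ 2 ∣ a ^ 2 + b ^ 2) := by
    intro b hb
    rw [Finset.mem_union, Finset.mem_image, Finset.mem_image] at hb
    have gen : ∀ s k : ℕ, s < q → k < q → q ∣ a ^ 2 + s ^ 2 → ¬ q ^ 2 ∣ a ^ 2 + (s + q * k) ^ 2 →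
        s + q * k ∈ ((range (q ^ 2)).filter fun b => q ∣ a ^ 2 + b ^ 2 ∧ ¬ q ^ 2 ∣ a ^ 2 + b ^ 2) := by
      intro s k hs hk h1 h2
      rw [Finset.mem_filter, Finset.mem_range]
      refine ⟨by nlinarith, ?_, h2⟩
      have : a ^ 2 + (s + q * k) ^ 2 = (a ^ 2 + s ^ 2) + q * (2 * s * k + q * k ^ 2) := by ring
      rw [this]
      exact dvd_add h1 (Dvd.intro _ rfl)
    rcases hb with ⟨k, hk, rfl⟩ | ⟨k, hk, rfl⟩
    · rw [hA, Finset.mem_filter, Finset.mem_range] at hk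
      exact gen r k hr hk.1 h1 hk.2
    · rw [hB, Finset.mem_filter, Finset.mem_range] at hk
      exact gen r' k hr' hk.1 h2 hk.2
  have hdisj : Disjoint (A.image (fun k => r + q * k)) (B.image (fun k => r' + q * k)) := by
    rw [Finset.disjoint_left]
    intro b hb hb'
    rw [Finset.mem_image] at hb hb'
    obtain ⟨k, _, e⟩ := hb
    obtain ⟨k', _, e'⟩ := hb'
    apply hne
    have m1 : (r + q * k) % q = r := by
      rw [Nat.add_mul_mod_self_left, Nat.mod_eq_of_lt hr]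
    have m2 : (r' + q * k') % q = r' := by
      rw [Nat.add_mul_mod_self_left, Nat.mod_eq_of_lt hr']
    have e1 : r + q * k = r' + q * k' := by
      rw [show r + q * k = b from e, show r' + q * k' = b from e']
    rw [← m1, ← m2, e1]
  have hcard := Finset.card_le_card hsub
  rw [Finset.card_union_of_disjoint hdisj, Finset.card_image_of_injective _ (inj r),
    Finset.card_image_of_injective _ (inj r')] at hcard
  have hAc' : q - 1 ≤ A.card := by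
    rw [hA]; exact hAc
  have hBc' : q - 1 ≤ B.card := by
    rw [hB]; exact hBc
  have hsum : (q - 1) + (q - 1) ≤ A.card + B.card := Nat.add_le_add hAc' hBc'
  have h2q : 2 * (q - 1) = (q - 1) + (q - 1) := by ring
  rw [h2q]
  exact hsum.trans hcard

/-- the number of exact pairs modulo `q²` -/
lemma exact_pairs {q : ℕ} (hq : q.Prime) (h4 : q % 4 = 1) :
    q ^ 3 ≤ (((range (q ^ 2)) ×ˢ (range (q ^ 2))).filter fun a : ℕ × ℕ =>
      q ∣ a.1 ^ 2 + a.2 ^ 2 ∧ ¬ q ^ 2 ∣ a.1 ^ 2 + a.2 ^ 2).card := by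
  classical
  have h5 : 5 ≤ q := by
    have := hq.two_le
    by_contra h
    interval_cases q <;> omega
  have hphi : ((range (q ^ 2)).filter fun a => ¬ q ∣ a).card = q * (q - 1) := by
    have h1 := Nat.totient_prime_pow_succ hq 1
    rw [Nat.totient_eq_card_coprime] at h1
    rw [pow_one] at h1
    rw [← h1]
    congr 1
    apply Finset.filter_congr
    intro a _
    rw [Nat.coprime_pow_left_iff (by norm_num), hq.coprime_iff_not_dvd]
  have hmain : q * (q - 1) * (2 * (q - 1)) ≤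
      (((range (q ^ 2)) ×ˢ (range (q ^ 2))).filter fun a : ℕ × ℕ =>
      q ∣ a.1 ^ 2 + a.2 ^ 2 ∧ ¬ q ^ 2 ∣ a.1 ^ 2 + a.2 ^ 2).card := by
    rw [Finset.card_filter, Finset.sum_product]
    calc q * (q - 1) * (2 * (q - 1)) =
          ∑ a ∈ (range (q ^ 2)).filter (fun a => ¬ q ∣ a), 2 * (q - 1) := by
            rw [Finset.sum_const, hphi, smul_eq_mul]
      _ ≤ ∑ a ∈ (range (q ^ 2)).filter (fun a => ¬ q ∣ a), ∑ b ∈ range (q ^ 2),
            (if q ∣ a ^ 2 + b ^ 2 ∧ ¬ q ^ 2 ∣ a ^ 2 + b ^ 2 then 1 else 0) := by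
            apply Finset.sum_le_sum
            intro a ha
            rw [Finset.mem_filter] at ha
            have := exact_row hq h4 ha.2
            rwa [Finset.card_filter] at this
      _ ≤ _ := by
            apply Finset.sum_le_sum_of_subset
            exact Finset.filter_subset _ _
  refine le_trans ?_ hmain
  obtain ⟨m, rfl⟩ : ∃ m, q = m + 5 := ⟨q - 5, by omega⟩
  have : m + 5 - 1 = m + 4 := by omega
  rw [this]
  nlinarith [sq_nonneg m, pow_pos (show 0 < m + 5 by omega) 2, Nat.zero_le (m ^ 3)]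

/-- the pairs modulo `q²` which are not exact -/
noncomputable def Hq (q : ℕ) : Finset (ℕ × ℕ) :=
  ((range (q ^ 2)) ×ˢ (range (q ^ 2))).filter fun a : ℕ × ℕ =>
      ¬ (q ∣ a.1 ^ 2 + a.2 ^ 2 ∧ ¬ q ^ 2 ∣ a.1 ^ 2 + a.2 ^ 2)

lemma card_Hq {q : ℕ} (hq : q.Prime) (h4 : q % 4 = 1) :
    ((Hq q).card : ℝ) ≤ ((q : ℝ) ^ 2) ^ 2 * (1 - 1 / (q : ℝ)) := by
  have h1 := exact_pairs hq h4
  have h2 := Finset.card_filter_add_card_filter_not (s := (range (q ^ 2)) ×ˢ (range (q ^ 2)))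
    (fun a : ℕ × ℕ => q ∣ a.1 ^ 2 + a.2 ^ 2 ∧ ¬ q ^ 2 ∣ a.1 ^ 2 + a.2 ^ 2)
  rw [Finset.card_product, Finset.card_range] at h2
  have h3 : q ^ 3 + (Hq q).card ≤ q ^ 2 * q ^ 2 := by
    rw [← h2]
    exact Nat.add_le_add_right h1 _
  have h4 : (q : ℝ) ^ 3 + ((Hq q).card : ℝ) ≤ (q : ℝ) ^ 2 * (q : ℝ) ^ 2 := by exact_mod_cast h3
  have hq0 : (q : ℝ) ≠ 0 := by exact_mod_cast hq.ne_zero
  have e : ((q : ℝ) ^ 2) ^ 2 * (1 - 1 / (q : ℝ)) = (q : ℝ) ^ 2 * (q : ℝ) ^ 2 - (q : ℝ) ^ 3 := by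
    field_simp
  rw [e]
  linarith

/-- residues modulo all `q²` determine the residue modulo the product -/
lemma crt_inj {S : Finset ℕ} (hS : ∀ q ∈ S, q.Prime) {a b : ℕ} (ha : a < ∏ q ∈ S, q ^ 2)
    (hb : b < ∏ q ∈ S, q ^ 2) (h : ∀ q ∈ S, a % q ^ 2 = b % q ^ 2) : a = b := by
  have hd : ((∏ q ∈ S, ((q : ℤ) ^ 2)) : ℤ) ∣ (b : ℤ) - a := by
    apply Finset.prod_dvd_of_coprime
    · intro p hp q hq hpq
      have h1 : Nat.Coprime (p ^ 2) (q ^ 2) :=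
        Nat.Coprime.pow 2 2 ((Nat.coprime_primes (hS p hp) (hS q hq)).2 hpq)
      have := Nat.isCoprime_iff_coprime.2 h1
      simpa [Function.onFun] using this
    · intro q hq
      have : a ≡ b [MOD q ^ 2] := h q hq
      have := (Nat.modEq_iff_dvd).1 this
      exact_mod_cast this
  have hm : a ≡ b [MOD ∏ q ∈ S, q ^ 2] := by
    rw [Nat.modEq_iff_dvd]
    push_cast
    exact hd
  exact Nat.ModEq.eq_of_lt_of_lt hm ha hb

lemma card_G {S : Finset ℕ} (hS : ∀ q ∈ S, q.Prime) (G : Finset (ℕ × ℕ))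
    (hG : ∀ a ∈ G, a.1 < ∏ q ∈ S, q ^ 2 ∧ a.2 < ∏ q ∈ S, q ^ 2 ∧
      ∀ q ∈ S, ¬ Exa q (a.1 ^ 2 + a.2 ^ 2)) :
    G.card ≤ ∏ q ∈ S, (Hq q).card := by
  classical
  rw [← Finset.card_pi]
  apply Finset.card_le_card_of_injOn (fun a q _ => (a.1 % q ^ 2, a.2 % q ^ 2))
  · intro a ha
    rw [Finset.mem_coe] at ha
    obtain ⟨h1, h2, h3⟩ := hG a ha
    rw [Finset.mem_coe, Finset.mem_pi]
    intro q hq
    have hpos : 0 < q ^ 2 := pow_pos (hS q hq).pos 2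
    unfold Hq
    rw [Finset.mem_filter, Finset.mem_product, Finset.mem_range, Finset.mem_range]
    refine ⟨⟨Nat.mod_lt _ hpos, Nat.mod_lt _ hpos⟩, ?_⟩
    have := (exa_congr (Nat.mod_modEq a.1 (q ^ 2)) (Nat.mod_modEq a.2 (q ^ 2))).not.2 (h3 q hq)
    exact this
  · intro a ha b hb hab
    rw [Finset.mem_coe] at ha hb
    obtain ⟨a1, a2, _⟩ := hG a ha
    obtain ⟨b1, b2, _⟩ := hG b hb
    have hq : ∀ q ∈ S, (a.1 % q ^ 2, a.2 % q ^ 2) = (b.1 % q ^ 2, b.2 % q ^ 2) := by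
      intro q hq
      have := congrFun (congrFun hab q) hq
      exact this
    apply Prod.ext
    · exact crt_inj hS a1 b1 fun q hq' => (Prod.mk.inj (hq q hq')).1
    · exact crt_inj hS a2 b2 fun q hq' => (Prod.mk.inj (hq q hq')).2

theorem pf_KD : T_KD := by
  classical
  intro S hS
  have hSp : ∀ q ∈ S, q.Prime := fun q hq => (hS q hq).1
  set M : ℕ := ∏ q ∈ S, q ^ 2 with hM
  have hMpos : 0 < M := Finset.prod_pos fun q hq => pow_pos (hSp q hq).pos 2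
  refine ⟨3 * M, fun Y hY => ?_⟩
  set N := ((Icc 1 Y ×ˢ Icc 1 Y).filter fun a : ℕ × ℕ =>
      ∀ q ∈ S, ¬ Exa q (a.1 ^ 2 + a.2 ^ 2)) with hN
  set G := ((range M ×ˢ range M).filter fun a : ℕ × ℕ =>
      ∀ q ∈ S, ¬ Exa q (a.1 ^ 2 + a.2 ^ 2)) with hG
  have hGc : G.card ≤ ∏ q ∈ S, (Hq q).card := by
    apply card_G hSp
    intro a ha
    rw [hG, Finset.mem_filter, Finset.mem_product, Finset.mem_range, Finset.mem_range] at ha
    exact ⟨ha.1.1, ha.1.2, ha.2⟩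
  have hGr : (G.card : ℝ) ≤ (M : ℝ) ^ 2 * Real.exp (-∑ q ∈ S, (1 : ℝ) / (q : ℝ)) := by
    calc (G.card : ℝ) ≤ ((∏ q ∈ S, (Hq q).card : ℕ) : ℝ) := by exact_mod_cast hGc
      _ = ∏ q ∈ S, ((Hq q).card : ℝ) := by push_cast; rfl
      _ ≤ ∏ q ∈ S, (((q : ℝ) ^ 2) ^ 2 * Real.exp (-(1 / (q : ℝ)))) := by
          apply Finset.prod_le_prod
          · intro q _; positivity
          · intro q hq
            refine (card_Hq (hS q hq).1 (hS q hq).2).trans ?_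
            apply mul_le_mul_of_nonneg_left _ (by positivity)
            have := Real.add_one_le_exp (-(1 / (q : ℝ)))
            linarith
      _ = (M : ℝ) ^ 2 * Real.exp (-∑ q ∈ S, (1 : ℝ) / (q : ℝ)) := by
          rw [Finset.prod_mul_distrib, Finset.prod_pow, hM, ← Finset.sum_neg_distrib,
            Real.exp_sum]
          push_cast
          rfl
  have hNc : N.card ≤ ((range (Y / M + 1) ×ˢ range (Y / M + 1)) ×ˢ G).card := by
    apply Finset.card_le_card_of_injOn (fun a => ((a.1 / M, a.2 / M), (a.1 % M, a.2 % M)))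
    · intro a ha
      rw [Finset.mem_coe, hN, Finset.mem_filter, Finset.mem_product, Finset.mem_Icc,
        Finset.mem_Icc] at ha
      obtain ⟨⟨⟨_, h1⟩, ⟨_, h2⟩⟩, h3⟩ := ha
      rw [Finset.mem_coe, Finset.mem_product, Finset.mem_product, Finset.mem_range,
        Finset.mem_range]
      refine ⟨⟨Nat.lt_succ_of_le (Nat.div_le_div_right h1),
        Nat.lt_succ_of_le (Nat.div_le_div_right h2)⟩, ?_⟩
      rw [hG, Finset.mem_filter, Finset.mem_product, Finset.mem_range, Finset.mem_range]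
      refine ⟨⟨Nat.mod_lt _ hMpos, Nat.mod_lt _ hMpos⟩, fun q hq => ?_⟩
      have hqM : q ^ 2 ∣ M := Finset.dvd_prod_of_mem _ hq
      have e1 : a.1 % M ≡ a.1 [MOD q ^ 2] := (Nat.mod_modEq a.1 M).of_dvd hqM
      have e2 : a.2 % M ≡ a.2 [MOD q ^ 2] := (Nat.mod_modEq a.2 M).of_dvd hqM
      exact (exa_congr e1 e2).not.2 (h3 q hq)
    · intro a _ b _ hab
      have h := Prod.mk.inj hab
      have h1 := Prod.mk.inj h.1
      have h2 := Prod.mk.inj h.2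
      apply Prod.ext
      · rw [← Nat.div_add_mod a.1 M, ← Nat.div_add_mod b.1 M, h1.1, h2.1]
      · rw [← Nat.div_add_mod a.2 M, ← Nat.div_add_mod b.2 M, h1.2, h2.2]
  rw [Finset.card_product, Finset.card_product, Finset.card_range] at hNc
  have hMr : (0 : ℝ) < M := by exact_mod_cast hMpos
  have hYM : ((Y / M + 1 : ℕ) : ℝ) * M ≤ (Y : ℝ) + M := by
    have : (Y / M + 1) * M ≤ Y + M := by
      have := Nat.div_mul_le_self Y M
      nlinarith
    exact_mod_cast this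
  have hYr : 3 * (M : ℝ) ≤ Y := by exact_mod_cast hY
  have hE : 0 < Real.exp (-∑ q ∈ S, (1 : ℝ) / (q : ℝ)) := Real.exp_pos _
  calc (N.card : ℝ) ≤ (((Y / M + 1) * (Y / M + 1) * G.card : ℕ) : ℝ) := by exact_mod_cast hNc
    _ = ((Y / M + 1 : ℕ) : ℝ) ^ 2 * (G.card : ℝ) := by push_cast; ring
    _ ≤ ((Y / M + 1 : ℕ) : ℝ) ^ 2 * ((M : ℝ) ^ 2 * Real.exp (-∑ q ∈ S, (1 : ℝ) / (q : ℝ))) :=
        mul_le_mul_of_nonneg_left hGr (by positivity)
    _ = (((Y / M + 1 : ℕ) : ℝ) * M) ^ 2 * Real.exp (-∑ q ∈ S, (1 : ℝ) / (q : ℝ)) := by ring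
    _ ≤ ((Y : ℝ) + M) ^ 2 * Real.exp (-∑ q ∈ S, (1 : ℝ) / (q : ℝ)) := by
        apply mul_le_mul_of_nonneg_right _ hE.le
        exact pow_le_pow_left₀ (by positivity) hYM 2
    _ ≤ (2 * (Y : ℝ) ^ 2) * Real.exp (-∑ q ∈ S, (1 : ℝ) / (q : ℝ)) := by
        apply mul_le_mul_of_nonneg_right _ hE.le
        nlinarith [mul_pos hMr hMr]
    _ = _ := by ring

end Pool.Agent.H20.PSQ
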